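import Pool.Agent.Helper56.GC.Defs
import Pool.Agent.Helper38.GP.Stmt

/-!
# The definitions of `GC.Defs` agree with those of the library
-/

namespace Pool.Agent.Helper56.GC

open MvPowerSeries Pool.Agent.Helper38

variable {K : Type} [Field K]

theorem isCrit_iff {n : ℕ} {f : MvPowerSeries (Fin (n + 1)) K}
    {I : Ideal (MvPowerSeries (Fin (n + 1)) K)} {z : Fin n → MvPowerSeries (Fin (n + 1)) K}
    {g : MvPowerSeries (Fin n) K} {I' : Ideal (MvPowerSeries (Fin n) K)} :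
    IsCrit f I z g I' ↔ GP.IsCrit f I z g I' :=
  ⟨fun ⟨σ, F, h⟩ => ⟨⟨σ⟩, F, h⟩, fun ⟨σ, F, h⟩ => ⟨σ.equiv, F, h⟩⟩

theorem equi_iff (𝒞 : ProjClass K) : ∀ (r n : ℕ) (f : MvPowerSeries (Fin n) K)
    (I : Ideal (MvPowerSeries (Fin n) K)), Equi 𝒞 r n f I ↔ GP.Equi 𝒞 r n f I
  | 0, _, _, _ => Iff.rfl
  | _ + 1, 0, _, _ => Iff.rfl
  | r + 1, n + 1, f, I => by
    unfold Equi GP.Equi
    refine and_congr Iff.rfl (exists_congr fun z => and_congr Iff.rfl (and_congr Iff.rfl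
      (and_congr Iff.rfl (exists_congr fun g => exists_congr fun I' => and_congr isCrit_iff
        (equi_iff 𝒞 r n g I')))))

theorem equiProj_iff (𝒞 : ProjClass K) (r : ℕ) {n : ℕ} {f : MvPowerSeries (Fin (n + 1)) K}
    {I : Ideal (MvPowerSeries (Fin (n + 1)) K)} {z : Fin n → MvPowerSeries (Fin (n + 1)) K} :
    EquiProj 𝒞 r f I z ↔ GP.EquiProj 𝒞 r f I z :=
  and_congr Iff.rfl (and_congr Iff.rfl (exists_congr fun g => exists_congr fun I' =>
    and_congr isCrit_iff (equi_iff 𝒞 r n g I')))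

end Pool.Agent.Helper56.GC
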