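import Mathlib

/-!
# Equisingularity by permissible projections, and the example: definitions
-/

namespace Pool.Agent.Helper56.GC

open MvPowerSeries

section

variable {n : ℕ} {K : Type} [Field K]

/-- The ideal generated by `f` and its first derivatives: it defines the singular locus of the
(reduced) hypersurface germ `f = 0`. -/
noncomputable def singIdeal (f : MvPowerSeries (Fin n) K) : Ideal (MvPowerSeries (Fin n) K) :=
  Ideal.span ({f} ∪ Set.range fun i => pderiv K i f)

/-- The linear part of the power series `h`, evaluated at the vector `v`. -/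
noncomputable def lin (h : MvPowerSeries (Fin n) K) (v : Fin n → K) : K :=
  ∑ j, coeff (Finsupp.single j 1) h * v j

/-- The power series have constant term `0` and linearly independent linear parts. -/
def LinIndep {ι : Type} (h : ι → MvPowerSeries (Fin n) K) : Prop :=
  (∀ i, constantCoeff (h i) = 0) ∧
    LinearIndependent K (fun i => fun j : Fin n => coeff (Finsupp.single j 1) (h i))

/-- `z_1, …, z_n` form a set of parameters of `V : f = 0`: the constant terms are `0`, the linear
parts are independent, and the origin is an isolated common zero of `z_1, …, z_n, f` (the ideal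
generated by these series is primary to the maximal ideal). -/
def IsParams (f : MvPowerSeries (Fin (n + 1)) K) (z : Fin n → MvPowerSeries (Fin (n + 1)) K) :
    Prop :=
  LinIndep z ∧ (Ideal.span (insert f (Set.range z))).radical =
    IsLocalRing.maximalIdeal (MvPowerSeries (Fin (n + 1)) K)

/-- The projection is permissible for the smooth germ `W` with ideal `I`: the line `l_z` defined by
the linear parts of `z_1, …, z_n` is not contained in the tangent space of `W`. -/
def Permissible (I : Ideal (MvPowerSeries (Fin (n + 1)) K))
    (z : Fin n → MvPowerSeries (Fin (n + 1)) K) : Prop :=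
  ∃ v, (∀ i, lin (z i) v = 0) ∧ ∃ h ∈ I, lin h v ≠ 0

/-- `g = 0` is the critical variety of the projection `(z_1, …, z_n)` of `V : f = 0`, and `I'` is
the ideal of the image of `W` (with ideal `I`): in coordinates `(y, t)` with `y_i = z_i` (given by an
isomorphism `σ` with the ring of power series in `t` with coefficients the power series in
`y_1, …, y_n`), `f` is a unit times its Weierstrass polynomial `F(y, t)`, and `g` generates the
radical of the ideal of the discriminant of `F`. -/
def IsCrit (f : MvPowerSeries (Fin (n + 1)) K) (I : Ideal (MvPowerSeries (Fin (n + 1)) K))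
    (z : Fin n → MvPowerSeries (Fin (n + 1)) K) (g : MvPowerSeries (Fin n) K)
    (I' : Ideal (MvPowerSeries (Fin n) K)) : Prop :=
  ∃ (σ : MvPowerSeries (Fin (n + 1)) K ≃ₐ[K] PowerSeries (MvPowerSeries (Fin n) K))
    (F : Polynomial (MvPowerSeries (Fin n) K)),
    (∀ i, σ (z i) = PowerSeries.C (X i)) ∧
    (∃ U, (σ f).IsWeierstrassFactorization F U) ∧
    Ideal.span {g} = (Ideal.span {F.discr}).radical ∧
    I' = Ideal.comap (PowerSeries.C (R := MvPowerSeries (Fin n) K)) (Ideal.map σ I)

/-- The part of degree `d` of the power series `f`, evaluated at the vector `v`. -/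
noncomputable def homPart (f : MvPowerSeries (Fin n) K) (d : ℕ) (v : Fin n → K) : K :=
  ∑ ν ∈ Finset.univ.finsuppAntidiag d, coeff ν f * ∏ j, v j ^ ν j

/-- The projection `(z_1, …, z_n)` of `V : f = 0` is transversal: the line `l_z` is not contained in
the tangent cone of `V`, the zero set of the part of least degree `d` of `f`. -/
def Transversal (f : MvPowerSeries (Fin (n + 1)) K) (z : Fin n → MvPowerSeries (Fin (n + 1)) K) :
    Prop :=
  ∃ (v : Fin (n + 1) → K) (d : ℕ), (∀ i, lin (z i) v = 0) ∧
    (∀ ν : Fin (n + 1) →₀ ℕ, ν.degree < d → coeff ν f = 0) ∧ homPart f d v ≠ 0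

/-- The power series is a linear form. -/
def IsLinear (h : MvPowerSeries (Fin n) K) : Prop :=
  ∃ ℓ : Fin n → K, h = ∑ j, C (ℓ j) * X j

/-- `W` (with ideal `I`) is a smooth germ of codimension `c` in the ambient space. -/
def IsSmoothGerm (c : ℕ) (I : Ideal (MvPowerSeries (Fin n) K)) : Prop :=
  ∃ h : Fin c → MvPowerSeries (Fin n) K, LinIndep h ∧ I = Ideal.span (Set.range h)

end

/-- A class of admissible projections `(z_1, …, z_n)` of hypersurfaces `f = 0` in `n + 1` variables
(for example all those given by convergent series, or the linear ones that are transversal). -/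
abbrev ProjClass (K : Type) [Field K] : Type :=
  ∀ n : ℕ, MvPowerSeries (Fin (n + 1)) K → (Fin n → MvPowerSeries (Fin (n + 1)) K) → Prop

/-- `V : f = 0` is equisingular at the origin along `W`, of codimension `r` in `V`. In codimension
`0`: `W = V`, and the origin is a smooth point of `V`. In codimension `r + 1`: `W ⊆ V`, and for
some set of parameters `z_i` (in the class `𝒞`), permissible for `W`, the critical variety
`g = 0` is equisingular at the origin along the image of `W`. -/
def Equi {K : Type} [Field K] (𝒞 : ProjClass K) :
    ℕ → ∀ n : ℕ, MvPowerSeries (Fin n) K → Ideal (MvPowerSeries (Fin n) K) → Prop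
  | 0, n, f, I => f ∈ IsLocalRing.maximalIdeal (MvPowerSeries (Fin n) K) ∧
      f ∉ IsLocalRing.maximalIdeal (MvPowerSeries (Fin n) K) ^ 2 ∧ I = Ideal.span {f}
  | _ + 1, 0, _, _ => False
  | r + 1, n + 1, f, I => f ∈ I ∧ ∃ z : Fin n → MvPowerSeries (Fin (n + 1)) K,
      𝒞 n f z ∧ IsParams f z ∧ Permissible I z ∧
      ∃ g I', IsCrit f I z g I' ∧ Equi 𝒞 r n g I'

/-- The projection `(z_1, …, z_n)` is an equisingular projection of `V : f = 0` for `W`, where `W`
has codimension `r + 1` in `V`: the `z_i` form a set of parameters, the projection is permissible,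
and the critical variety is equisingular along the image of `W`. -/
def EquiProj {K : Type} [Field K] (𝒞 : ProjClass K) (r : ℕ) {n : ℕ}
    (f : MvPowerSeries (Fin (n + 1)) K) (I : Ideal (MvPowerSeries (Fin (n + 1)) K))
    (z : Fin n → MvPowerSeries (Fin (n + 1)) K) : Prop :=
  IsParams f z ∧ Permissible I z ∧ ∃ g I', IsCrit f I z g I' ∧ Equi 𝒞 r n g I'

/-- A power series over `ℂ` is convergent (in a neighbourhood of the origin). -/
def IsConvergent {n : ℕ} (h : MvPowerSeries (Fin n) ℂ) : Prop :=
  ∃ C r : ℝ, ∀ ν : Fin n →₀ ℕ, ‖coeff ν h‖ ≤ C * r ^ ν.degree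

/-- The class of the projections given by convergent power series. -/
def Convergent : ProjClass ℂ := fun _ _ z => ∀ i, IsConvergent (z i)

/-- The class of the projections given by arbitrary formal power series. -/
def Formal (K : Type) [Field K] : ProjClass K := fun _ _ _ => True

/-- The class of the linear transversal projections. -/
def LinearTransversal (K : Type) [Field K] : ProjClass K :=
  fun _ f z => (∀ i, IsLinear (z i)) ∧ Transversal f z

/-! ### The example: the union of four quadratic cones, of codimension `2` -/

/-- The coefficients of the leading forms. -/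
def exA (K : Type) [Field K] : Fin 4 → K := ![1, 2, 3, 5]

/-- The four polynomials `h_m = a_m x y + A_m x ^ 4`; the coordinates are `z = X 0`, `x = X 1`,
`y = X 2`, `t = X 3`. -/
noncomputable def exH (K : Type) [Field K] : Fin 4 → MvPowerSeries (Fin 4) K :=
  ![X 1 * X 2 + X 1 ^ 4, 2 * X 1 * X 2 + X 1 ^ 4,
    3 * X 1 * X 2 + ((1 + X 3) ^ 2 - 3) * X 1 ^ 4,
    5 * X 1 * X 2 + ((1 + X 3) ^ 2 - 5) * X 1 ^ 4]

/-- The equation of `V`: the product of the four polynomials `z ^ 2 - h_m`. -/
noncomputable def exF (K : Type) [Field K] : MvPowerSeries (Fin 4) K :=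
  ∏ i, (X 0 ^ 2 - exH K i)

/-- The ideal of `W`: the line `z = x = y = 0`. -/
noncomputable def exI (K : Type) [Field K] : Ideal (MvPowerSeries (Fin 4) K) :=
  Ideal.span {X 0, X 1, X 2}

end Pool.Agent.Helper56.GC
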