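import Pool.Agent.Helper49.R2.FinalA
import Pool.Agent.Helper49.R2.Pos

namespace Pool.Agent.Helper56.GC.Old

open MvPowerSeries Pool.Agent.Helper38.EQ Pool.Agent.Helper49.R2 Pool.Agent.Helper85.R2
open Pool.Agent.Helper38.GP hiding exF exI neg_ex generic_ex good_proj_ex equi_ex exF_convergent
  exF_radical exI_smooth exF_sing

/-- The negated form of Q1, in a strong form, in the least possible codimension `r = 2`. `V` is the
union of the four quadratic cones `z² = h_m` in the `4`-space with the coordinates `z, x, y, t`,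
with `h_m = x y + x⁴, 2 x y + x⁴, 3 x y + ((1 + t)² - 3) x⁴, 5 x y + ((1 + t)² - 5) x⁴`, and `W` is
the line `z = x = y = 0`, of codimension `2` in `V`.
* The equation of `V` is convergent and reduced, `W` is smooth and contained in the singular
  locus of `V`.
* `V` is equisingular at the origin along `W`, even in the sense of the definition in which only
  linear transversal projections are allowed at both steps.
* No projection `(z_1, z_2, z_3)` with a direction `v`, `v 0 ≠ 0` and `v 2 ≠ 0`, is equisingular,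
  also if arbitrary formal power series are allowed for the `z_i` and for the projection in the
  second step. If moreover `v` is not in the tangent cone of `V`, these projections are sets of
  parameters, permissible for `W`, and transversal.
* For every nonzero polynomial `G` in the coefficients of three power series there are convergent
  series `z_i` with `G ≠ 0` with all these properties. -/
theorem main :
    (IsConvergent (exF ℂ) ∧ (Ideal.span {exF ℂ}).IsRadical ∧ IsSmoothGerm 3 (exI ℂ) ∧
      singIdeal (exF ℂ) ≤ exI ℂ) ∧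
    (Equi Convergent 2 4 (exF ℂ) (exI ℂ) ∧ Equi (LinearTransversal ℂ) 2 4 (exF ℂ) (exI ℂ)) ∧
    (∀ (z : Fin 3 → MvPowerSeries (Fin 4) ℂ) (v : Fin 4 → ℂ), LinIndep z →
      (∀ i, lin (z i) v = 0) → v 0 ≠ 0 → v 2 ≠ 0 →
        ¬ EquiProj (Formal ℂ) 1 (exF ℂ) (exI ℂ) z ∧
        ((∀ i, v 0 ^ 2 ≠ exA ℂ i * v 1 * v 2) →
          IsParams (exF ℂ) z ∧ Permissible (exI ℂ) z ∧ Transversal (exF ℂ) z)) ∧
    ∀ G : MvPolynomial (Fin 3 × {ν : Fin 4 →₀ ℕ // ν ≠ 0}) ℂ, G ≠ 0 →
      ∃ z : Fin 3 → MvPowerSeries (Fin 4) ℂ,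
        (∀ i, IsConvergent (z i) ∧ constantCoeff (z i) = 0) ∧
        MvPolynomial.eval (fun p => coeff p.2.1 (z p.1)) G ≠ 0 ∧
        IsParams (exF ℂ) z ∧ Permissible (exI ℂ) z ∧ Transversal (exF ℂ) z ∧
        ¬ EquiProj (Formal ℂ) 1 (exF ℂ) (exI ℂ) z ∧
        ¬ EquiProj Convergent 1 (exF ℂ) (exI ℂ) z :=
  ⟨⟨exF_convergent, exF_radical, exI_smooth, exF_sing⟩,
    ⟨equi_ex hasLin_convergent, equi_ex (hasLin_linear ℂ)⟩,
    fun z _ hz hv h0 h2 => ⟨neg_ex z hv h0 h2, fun hq => good_proj_ex z hz hv h0 hq⟩,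
    generic_ex⟩

end Pool.Agent.Helper56.GC.Old
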